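import Pool.Agent.U912.Few.QLat

set_option autoImplicit false

/-!
# MP_ac5134: the tube inequality for translates in a sparse lattice; the role of the exponent `n/(n-1)`

Work in `ℝ^n = ℝ^d × ℝ`, `n = d + 1`, with its Euclidean norm (`Space d`), and let `P` be the
paraboloid `{(ω, |ω|²)}`, `|ω| ≤ 1`.  The box dual to the cap at `ω` is `box N (nor ω) f a`, where `a` is
its centre: its long side `N²` is in the direction of the unit normal `nor ω` and its other sides `N` are
in the directions of an arbitrary orthonormal frame `f` of the orthogonal complement.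

We study the translates whose centres lie in the lattice `N^(2-c) ℤ^n`, where `c > 0` is small: the
mesh of the lattice is only slightly less than the length `N²` of the boxes.

1. Below the exponent `n/(n-1)` these translates are as difficult as all translates: for every `c` in
   `(0, 1]`, Q1 holds if and only if the inequality holds with the loss `C N^ε`, for all
   `1 < p < n/(n-1)`, for the translates with centres in `N^(2-c) ℤ^n` and in the ball of radius `N²`.
2. More precisely, for `1 ≤ p < n/(n-1)`: if the inequality holds with the constant `C k^α` for centres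
   in `(N²/k) ℤ^n` and in the ball of radius `N²`, for an unbounded set of scales `N` and for
   `k ≤ φ(N)`, where `φ` tends to infinity however slowly, then it holds with the constant `C N^α` for
   all translates and all `N`.
3. Above the exponent `n/(n-1)` there is no loss for them: if `p > n/(n-1)` and
   `c ≤ c(p) = ((n-1)(p-1) - 1)/(n (p-1))`, the inequality holds without loss for all translates with
   centres in `N^(2-c) ℤ^n`, and more generally if every centre is within `R N` of a point of a set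
   whose points have mutual distances at least `N^(2-c)`.
-/

open MeasureTheory Set Filter Topology
open scoped ENNReal

namespace Pool.Agent.Results.MP_ac5134_an.LatticeTranslates

/-- Euclidean space `ℝ^d`. -/
abbrev Vec (d : ℕ) : Type := EuclideanSpace ℝ (Fin d)

/-- Euclidean space `ℝ^{d+1}`, written as `ℝ^d × ℝ` with the Euclidean norm. -/
abbrev Space (d : ℕ) : Type := WithLp 2 (Vec d × ℝ)

/-- The unit normal `(-2ω, 1)/√(1+4|ω|²)` of the paraboloid at the point over `ω`. -/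
noncomputable def nor {d : ℕ} (ω : Vec d) : Space d :=
  (√(1 + ‖-(2 : ℝ) • ω‖ ^ 2))⁻¹ • WithLp.toLp 2 (-(2 : ℝ) • ω, (1:ℝ))

/-- The box with centre `a`, with one side of length `N²` in the direction `e` and with sides of length
`N` in the directions `f j`. -/
def box {d : ℕ} (N : ℝ) (e : Space d) (f : Fin d → Space d) (a : Space d) : Set (Space d) :=
  {y | |inner ℝ e (y - a)| ≤ N ^ 2 / 2 ∧ ∀ j, |inner ℝ (f j) (y - a)| ≤ N / 2}

/-- The caps have centres `ω i` in the closed unit ball, `σ/N`-separated and at least `κ N^d` in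
number, and `f i` is an orthonormal frame of the orthogonal complement of the normal at `ω i`. -/
def Caps {d : ℕ} {ι : Type} [Fintype ι] (σ κ N : ℝ) (ω : ι → Vec d) (f : ι → Fin d → Space d) : Prop :=
  (∀ i, ‖ω i‖ ≤ 1) ∧ (∀ i j, i ≠ j → σ / N ≤ ‖ω i - ω j‖) ∧ κ * N ^ d ≤ (Fintype.card ι : ℝ) ∧
    ∀ i, Orthonormal ℝ (Fin.cons (nor (ω i)) (f i) : Fin (d + 1) → Space d)

/-- The sum of the indicators of the boxes of the caps with centres `a i`. -/
noncomputable def boxSum {d : ℕ} {ι : Type} [Fintype ι] (N : ℝ) (ω : ι → Vec d)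
    (f : ι → Fin d → Space d) (a : ι → Space d) (y : Space d) : ℝ :=
  ∑ i, (box N (nor (ω i)) (f i) (a i)).indicator (fun _ => (1 : ℝ)) y

/-- The inequality of Q1 at the exponent `p` with the constant `C`, for the boxes with centres `a i`. -/
def Ineq {d : ℕ} {ι : Type} [Fintype ι] (C N : ℝ) (p : ℝ≥0∞) (ω : ι → Vec d)
    (f : ι → Fin d → Space d) (a : ι → Space d) : Prop :=
  eLpNorm (boxSum N ω f a) p volume ≤ ENNReal.ofReal C * eLpNorm (boxSum N ω f 0) p volume

/-- Q1 in `ℝ^(d+1)`: the inequality with the constant `C N^ε` for all translates and all `p ≥ 1`. -/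
def Q1 (d : ℕ) : Prop :=
  ∀ ε σ κ : ℝ, 0 < ε → 0 < σ → 0 < κ → ∃ C : ℝ, 0 < C ∧ ∀ N : ℝ, 1 ≤ N →
    ∀ (ι : Type) [Fintype ι] (ω : ι → Vec d) (f : ι → Fin d → Space d) (a : ι → Space d),
      Caps σ κ N ω f → ∀ p : ℝ≥0∞, 1 ≤ p → Ineq (C * N ^ ε) N p ω f a

/-- The inequality at the exponent `p` with the constant `C N^β`, for all translates. -/
def LossAll (d : ℕ) (p β : ℝ) : Prop :=
  ∀ σ κ : ℝ, 0 < σ → 0 < κ → ∃ C : ℝ, 0 < C ∧ ∀ N : ℝ, 1 ≤ N →
    ∀ (ι : Type) [Fintype ι] (ω : ι → Vec d) (f : ι → Fin d → Space d) (a : ι → Space d),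
      Caps σ κ N ω f → Ineq (C * N ^ β) N (ENNReal.ofReal p) ω f a

/-- The lattice `h ℤ^(d+1)`. -/
def Lat (d : ℕ) (h : ℝ) : Set (Space d) :=
  {a | (∀ j, ∃ z : ℤ, a.fst j = h * z) ∧ ∃ z : ℤ, a.snd = h * z}

/-- The inequality at the exponent `p` with the constant `C N^ε`, for the translates with centres in the
lattice of mesh `N^(2-c)` and in the ball of radius `N²`. -/
def LatEps (d : ℕ) (p c ε : ℝ) : Prop :=
  ∀ σ κ : ℝ, 0 < σ → 0 < κ → ∃ C : ℝ, 0 < C ∧ ∀ N : ℝ, 1 ≤ N →
    ∀ (ι : Type) [Fintype ι] (ω : ι → Vec d) (f : ι → Fin d → Space d) (a : ι → Space d),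
      Caps σ κ N ω f → (∀ i, a i ∈ Lat d (N ^ (2 - c))) → (∀ i, ‖a i‖ ≤ N ^ 2) →
      Ineq (C * N ^ ε) N (ENNReal.ofReal p) ω f a

/-- The inequality at the exponent `p` with the constant `C k^α`, only for the scales `N ∈ U` and for the
translates with centres in a lattice of mesh `N²/k`, `1 ≤ k ≤ φ(N)`, and in the ball of radius `N²`. -/
def LatNear (d : ℕ) (p α : ℝ) (U : Set ℝ) (φ : ℝ → ℝ) : Prop :=
  ∀ σ κ : ℝ, 0 < σ → 0 < κ → ∃ C : ℝ, 0 < C ∧ ∀ N ∈ U, 1 ≤ N → ∀ k : ℝ, 1 ≤ k → k ≤ φ N →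
    ∀ (ι : Type) [Fintype ι] (ω : ι → Vec d) (f : ι → Fin d → Space d) (a : ι → Space d),
      Caps σ κ N ω f → (∀ i, a i ∈ Lat d (N ^ 2 / k)) → (∀ i, ‖a i‖ ≤ N ^ 2) →
      Ineq (C * k ^ α) N (ENNReal.ofReal p) ω f a

/-- The number `c(p) = (d(p-1) - 1)/((d+1)(p-1))`, which is positive for `p > (d+1)/d`. -/
noncomputable def cexp (d : ℕ) (p : ℝ) : ℝ := (d * (p - 1) - 1) / ((d + 1) * (p - 1))

/-- **The tube inequality for translates in a sparse lattice**, in `ℝ^n`, `n = d + 1 ≥ 2`. -/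
theorem result (d : ℕ) (hd : 1 ≤ d) :
    -- below the critical exponent: as difficult as all translates
    (∀ c : ℝ, 0 < c → c ≤ 1 →
      (Q1 d ↔ ∀ p : ℝ, 1 < p → p < ((d : ℝ) + 1) / d → ∀ ε : ℝ, 0 < ε → LatEps d p c ε)) ∧
    (∀ (U : Set ℝ) (φ : ℝ → ℝ), ¬ BddAbove U → Tendsto φ atTop atTop → ∀ p α : ℝ, 1 ≤ p →
      p < ((d : ℝ) + 1) / d → 0 ≤ α → LatNear d p α U φ → LossAll d p α) ∧
    -- above the critical exponent: no loss
    (∀ p : ℝ, ((d : ℝ) + 1) / d < p → 0 < cexp d p ∧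
      ∀ σ κ R : ℝ, 0 < σ → 0 < κ → 0 ≤ R → ∃ C : ℝ, 1 ≤ C ∧ ∀ N : ℝ, 1 ≤ N →
        ∀ (ι : Type) [Fintype ι] (ω : ι → Vec d) (f : ι → Fin d → Space d) (a : ι → Space d),
          Caps σ κ N ω f →
          (∀ c : ℝ, c ≤ cexp d p → (∀ i, a i ∈ Lat d (N ^ (2 - c))) →
            Ineq C N (ENNReal.ofReal p) ω f a) ∧
          ∀ x : ι → Space d, (∀ i, ‖a i - x i‖ ≤ R * N) →
            (∀ i j, x i = x j ∨ N ^ (2 - cexp d p) ≤ ‖x i - x j‖) →
            Ineq C N (ENNReal.ofReal p) ω f a) := by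
  have hd0 : (0:ℝ) < d := by exact_mod_cast hd
  refine ⟨?_, ?_, ?_⟩
  · intro c hc0 hc1
    constructor
    · intro h p hp1 hp2 ε hε σ κ hσ hκ
      obtain ⟨C, hC, hC'⟩ := h ε σ κ hε hσ hκ
      refine ⟨C, hC, fun N hN ι _ ω f a hcaps _ _ => hC' N hN ι ω f a hcaps _ ?_⟩
      rw [← ENNReal.ofReal_one]
      exact ENNReal.ofReal_le_ofReal hp1.le
    · intro h
      exact Pool.Agent.U912.Few.q1_of_lat d hd hc0 hc1 h
  · intro U φ hU hφ p α hp1 hp2 hα h
    exact Pool.Agent.U912.Few.all_of_lat d hd hU hφ hp1 hp2 hα h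
  · intro p hp
    obtain ⟨hp1, hpd⟩ := Pool.Agent.U912.Few.exp_ok hd hp
    have hp0 : 0 < p := by linarith
    have hc0 : 0 < cexp d p := div_pos (by linarith) (mul_pos (by linarith) (by linarith))
    refine ⟨hc0, ?_⟩
    intro σ κ R hσ hκ hR
    obtain ⟨C, hC, h⟩ := Pool.Agent.U912.Few.lat_free d hd hσ hκ hR hp1 hpd
    refine ⟨C, hC, ?_⟩
    intro N hN ι _ ω f a hcaps
    have hN0 : 0 < N := by linarith
    have hgen : ∀ x : ι → Space d, (∀ i, ‖a i - x i‖ ≤ R * N) →
        (∀ i j, x i = x j ∨ N ^ (2 - cexp d p) ≤ ‖x i - x j‖) →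
        Ineq C N (ENNReal.ofReal p) ω f a := by
      intro x hax hx
      have h3 := h N hN ι ω f hcaps a x _ hax hx le_rfl
      exact (Pool.Agent.U912.Few.iqp_iff C N ω f a hp0).2 h3
    refine ⟨?_, hgen⟩
    intro c hc hlat
    refine hgen a (fun i => ?_) (fun i j => ?_)
    · rw [sub_self, norm_zero]
      positivity
    · rcases Pool.Agent.U912.Few.lat_sep (Real.rpow_pos_of_pos hN0 _) (hlat i) (hlat j) with h1 | h1
      · exact Or.inl h1
      · right
        refine le_trans ?_ h1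
        exact Real.rpow_le_rpow_of_exponent_le hN (by linarith)

end Pool.Agent.Results.MP_ac5134_an.LatticeTranslates
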