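import Pool.Agent.U515.CL.Boxes
import Pool.Agent.U515.CL.Examples
import Pool.Agent.R251.End.Cmp
import Pool.Agent.R134.Kak.Large

set_option autoImplicit false

/-!
# MP_ac5134: the inequality for translates whose position is an arbitrary function of one function of
the cap centre

Work in `ℝ^n = ℝ^d × ℝ`, `n = d + 1`, with its Euclidean norm (`Space d`), and let `P` be the
paraboloid `{(ω, |ω|²)}`, `|ω| ≤ 1`.  The box dual to the cap at `ω` is `box N (nor ω) f 0`: its long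
side `N²` is in the direction of the unit normal `nor ω = (-2ω, 1)/√(1+4|ω|²)` and its other sides `N`
are in the directions of an arbitrary orthonormal frame `f` of the orthogonal complement.  Every
translate of the box at `ω` can be given by the point `(β, 0)` where its axis meets the hyperplane of
height `0` and by the height `s` of its centre.

Let `φ : ℝ^d → ℝ`.  We consider translates for which the position depends, up to `K N`, only on
`φ (ω)`, up to `1/N`: `|β - F ⌊N φ (ω)⌋| ≤ K N`.  The function `F : ℤ → ℝ^d` is completely arbitrary.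
So the caps with `j/N ≤ φ (ω) < (j+1)/N` form one bush, and the about `N` bushes have arbitrary
vertices.  The function `φ` has the Lipschitz constant `L` on the ball of radius `2` and

1. along every direction it is convex on all parallel lines or concave on all parallel lines, and it
  is steep at the cap centres (it has a directional derivative at least `l` in one direction near the
  centre); or
2. it is convex, and the cap centres have distance from the minimum, in the sense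
  `φ (ω) ≥ φ (c) + l` for one point `c`; or
3. it is a quadratic polynomial, of any signature, with a gradient of length at least `l` at the cap
  centres (for instance `φ (ω) = ω_1 ω_2`, or `φ (ω) = |ω - c|²` with `|c| = 3`, for which the cap
  centres may fill the whole ball).

For these families, with heights at most `S N²`, the comparison with the centred family is proved
* for all `p` in `[1, ∞]` with the constant `C N^ε` (Q1);
* for all `p ≥ q`, for any given `q > n/(n-1)`, with a constant `C` independent of `N`;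
* for the critical exponent `p = n/(n-1)` with a constant independent of `N`;
* for `1 ≤ p < n/(n-1)` with the constant `C (1 + log N)^((n-1)(1-1/p))`, with one `C` for all `p`.
-/

open MeasureTheory Set Filter Topology ENNReal NNReal Metric

namespace Pool.Agent.Results.MP_ac5134_an.OneFunctionTranslates

/-- Euclidean space `ℝ^d`. -/
abbrev Vec (d : ℕ) : Type := EuclideanSpace ℝ (Fin d)

/-- Euclidean space `ℝ^{d+1}`, written as `ℝ^d × ℝ` with the Euclidean norm. -/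
abbrev Space (d : ℕ) : Type := WithLp 2 (Vec d × ℝ)

/-- The unit normal `(-2ω, 1)/√(1+4|ω|²)` of the paraboloid at the point over `ω`. -/
noncomputable def nor {d : ℕ} (ω : Vec d) : Space d :=
  (√(1 + ‖-(2 : ℝ) • ω‖ ^ 2))⁻¹ • WithLp.toLp 2 (-(2 : ℝ) • ω, (1:ℝ))

/-- The box with centre `a`, with one side of length `N²` in the direction `e` and with sides of length
`N` in the directions `f j`. -/
def box {d : ℕ} (N : ℝ) (e : Space d) (f : Fin d → Space d) (a : Space d) : Set (Space d) :=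
  {y | |inner ℝ e (y - a)| ≤ N ^ 2 / 2 ∧ ∀ j, |inner ℝ (f j) (y - a)| ≤ N / 2}

/-- The caps have centres `ω i` in the closed unit ball, `σ/N`-separated and at least `κ N^d` in
number, and `f i` is an orthonormal frame of the orthogonal complement of the normal at `ω i`. -/
def Caps {d : ℕ} {ι : Type} [Fintype ι] (σ κ N : ℝ) (ω : ι → Vec d) (f : ι → Fin d → Space d) : Prop :=
  (∀ i, ‖ω i‖ ≤ 1) ∧ (∀ i j, i ≠ j → σ / N ≤ ‖ω i - ω j‖) ∧ κ * N ^ d ≤ (Fintype.card ι : ℝ) ∧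
    ∀ i, Orthonormal ℝ (Fin.cons (nor (ω i)) (f i) : Fin (d + 1) → Space d)

/-- The sum of the indicators of the boxes of the caps with centres `a i`. -/
noncomputable def boxSum {d : ℕ} {ι : Type} [Fintype ι] (N : ℝ) (ω : ι → Vec d)
    (f : ι → Fin d → Space d) (a : ι → Space d) (y : Space d) : ℝ :=
  ∑ i, (box N (nor (ω i)) (f i) (a i)).indicator (fun _ => (1 : ℝ)) y

/-- The centre, at the height `s`, of the translate of the box at `ω` with the position `β`. -/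
def centre {d : ℕ} (ω β : Vec d) (s : ℝ) : Space d := WithLp.toLp 2 (β + s • (-(2 : ℝ) • ω), s)

/-- The comparison of the `L^p` norms with the constant `C`. -/
def Ineq {d : ℕ} {ι : Type} [Fintype ι] (p : ℝ≥0∞) (C N : ℝ) (ω β : ι → Vec d) (s : ι → ℝ)
    (f : ι → Fin d → Space d) : Prop :=
  eLpNorm (boxSum N ω f (fun i => centre (ω i) (β i) (s i))) p volume ≤
    ENNReal.ofReal C * eLpNorm (boxSum N ω f 0) p volume

/-- The family: caps with `Caps σ κ N ω f`, heights `s i` of the centres of the translates at most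
`S N²`, and positions `β i` which are, up to `K N`, a function `F` of the integral part of
`N φ (ω i)`. -/
def Family {d : ℕ} {ι : Type} [Fintype ι] (σ κ K S N : ℝ) (φ : Vec d → ℝ) (F : ℤ → Vec d)
    (ω β : ι → Vec d) (s : ι → ℝ) (f : ι → Fin d → Space d) : Prop :=
  Caps σ κ N ω f ∧ (∀ i, |s i| ≤ S * N ^ 2) ∧ ∀ i, ‖β i - F ⌊N * φ (ω i)⌋‖ ≤ K * N

/-- The function has the Lipschitz constant `L` on the ball of radius `2`. -/
def Lip {d : ℕ} (L : ℝ) (φ : Vec d → ℝ) : Prop :=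
  ∀ x y, ‖x‖ ≤ 2 → ‖y‖ ≤ 2 → |φ x - φ y| ≤ L * ‖x - y‖

/-- Along every direction `w` the function is convex on all lines parallel to `w`, or concave on all
lines parallel to `w`. -/
def LineSigned {d : ℕ} (φ : Vec d → ℝ) : Prop :=
  ∀ w : Vec d, (∀ x, ConvexOn ℝ univ (fun t : ℝ => φ (x + t • w))) ∨
    (∀ x, ConcaveOn ℝ univ (fun t : ℝ => φ (x + t • w)))

/-- For some unit vector `e` the function grows at least at the rate `l` in the direction `e`, on
segments of length `l` that start at distance at most `l` from `x`. -/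
def Steep {d : ℕ} (l : ℝ) (φ : Vec d → ℝ) (x : Vec d) : Prop :=
  ∃ e : Vec d, ‖e‖ = 1 ∧ ∀ y θ, ‖y - x‖ ≤ l → 0 ≤ θ → θ ≤ l → φ y + l * θ ≤ φ (y + θ • e)

/-- Case 1: a function with the two previous properties, steep at the cap centres. -/
def General {d : ℕ} {ι : Type} (L l : ℝ) (φ : Vec d → ℝ) (ω : ι → Vec d) : Prop :=
  Lip L φ ∧ LineSigned φ ∧ ∀ i, Steep l φ (ω i)

/-- Case 2: a convex function, and the cap centres lie at height at least `φ c + l`. -/
def Convex {d : ℕ} {ι : Type} (L l : ℝ) (φ : Vec d → ℝ) (ω : ι → Vec d) : Prop :=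
  Lip L φ ∧ ConvexOn ℝ univ φ ∧ ∃ c, ‖c‖ ≤ 1 ∧ ∀ i, φ c + l ≤ φ (ω i)

/-- Case 3: a quadratic polynomial with gradient of length at least `l` at the cap centres. -/
def Quadratic {d : ℕ} {ι : Type} (L l : ℝ) (φ : Vec d → ℝ) (ω : ι → Vec d) : Prop :=
  ∃ (Q : Vec d →L[ℝ] Vec d) (b : Vec d), ‖Q‖ ≤ L ∧ ‖b‖ ≤ L ∧
    (∀ x y, inner ℝ (Q x) y = inner ℝ x (Q y)) ∧ (∀ x, φ x = inner ℝ (Q x) x + inner ℝ b x) ∧
    ∀ i, l ≤ ‖(2 : ℝ) • Q (ω i) + b‖

/-- One of the three cases. -/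
def Good {d : ℕ} {ι : Type} (L l : ℝ) (φ : Vec d → ℝ) (ω : ι → Vec d) : Prop :=
  General L l φ ω ∨ Convex L l φ ω ∨ Quadratic L l φ ω

theorem good_general {d : ℕ} {L l : ℝ} (hL : 0 ≤ L) (hl : 0 < l) : ∃ l' : ℝ, 0 < l' ∧
    ∀ (ι : Type) (φ : Vec d → ℝ) (ω : ι → Vec d), (∀ i, ‖ω i‖ ≤ 1) → Good L l φ ω →
      General (5 * L) l' φ ω := by
  set l2 : ℝ := min 1 (l / (4 * (L + 1))) with hl2
  set l3 : ℝ := l / (3 * L + 1) with hl3
  have hl20 : 0 < l2 := by rw [hl2]; positivity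
  have hl30 : 0 < l3 := by rw [hl3]; positivity
  have e2 : l2 * (4 * (L + 1)) ≤ l := by
    have h1 : l2 ≤ l / (4 * (L + 1)) := min_le_right _ _
    rwa [le_div_iff₀ (by positivity)] at h1
  have e3 : l3 * (3 * L + 1) ≤ l := by
    rw [hl3]
    exact le_of_eq (by field_simp)
  have mono : ∀ (a b : ℝ) (φ : Vec d → ℝ) (x : Vec d), a ≤ b → Steep b φ x → Steep a φ x := by
    intro a b φ x hab ⟨e, he, h⟩
    refine ⟨e, he, ?_⟩
    intro y θ hy h0 h1
    have h2 := h y θ (hy.trans hab) h0 (h1.trans hab)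
    nlinarith
  have monoL : ∀ φ : Vec d → ℝ, Lip L φ → Lip (5 * L) φ := by
    intro φ h x y hx hy
    refine (h x y hx hy).trans ?_
    have : 0 ≤ ‖x - y‖ := norm_nonneg _
    nlinarith [mul_nonneg hL this]
  refine ⟨min l (min l2 l3), by positivity, ?_⟩
  intro ι φ ω hω h
  rcases h with h | h | h
  · exact ⟨monoL φ h.1, h.2.1, fun i => mono _ _ _ _ (min_le_left _ _) (h.2.2 i)⟩
  · obtain ⟨hlip, hconv, c, hc, hcv⟩ := h
    refine ⟨monoL φ hlip, Pool.Agent.U515.CL.dir_convex hconv, fun i => ?_⟩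
    refine mono _ l2 _ _ ((min_le_right _ _).trans (min_le_left _ _)) ?_
    exact Pool.Agent.U515.CL.steep_convex (Pool.Agent.U515.CL.dir_convex hconv) hconv hL hl20
        (min_le_left _ _) e2 hlip hc (hω i) (hcv i)
  · obtain ⟨Q, b, hQ, hb, hsym, hφ, hg'⟩ := h
    have hadj : ContinuousLinearMap.adjoint Q = Q := by
      refine (ContinuousLinearMap.eq_adjoint_iff Q Q).2 ?_ |>.symm
      exact hsym
    have hg : ∀ i, l ≤ ‖Pool.Agent.U515.CL.grad Q b (ω i)‖ := by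
      intro i
      unfold Pool.Agent.U515.CL.grad
      rw [hadj, ← two_smul ℝ (Q (ω i))]
      exact hg' i
    have hφ' : φ = Pool.Agent.U515.CL.quad Q b := funext hφ
    refine ⟨?_, ?_, fun i => ?_⟩
    · rw [hφ']
      exact Pool.Agent.U515.CL.quad_lip Q b hQ hb
    · rw [hφ']
      exact Pool.Agent.U515.CL.dir_quad Q b
    · refine mono _ l3 _ _ ((min_le_right _ _).trans (min_le_right _ _)) ?_
      rw [hφ']
      exact Pool.Agent.U515.CL.steep_quad Q b hQ hL hl30 e3 (hg i)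

/-- The statement for all exponents with a small power of `N`. -/
def AllExponents (d : ℕ) (σ κ K S L l ε : ℝ) : Prop :=
  ∃ C : ℝ, 0 < C ∧ ∀ N : ℝ, 1 ≤ N → ∀ (φ : Vec d → ℝ) (F : ℤ → Vec d) (ι : Type) [Fintype ι]
    (ω β : ι → Vec d) (s : ι → ℝ) (f : ι → Fin d → Space d),
    Family σ κ K S N φ F ω β s f → Good L l φ ω → ∀ p : ℝ≥0∞, 1 ≤ p → Ineq p (C * N ^ ε) N ω β s f

/-- The statement for the exponents `p ≥ q` without loss. -/
def LargeExponents (d : ℕ) (σ κ K S L l q : ℝ) : Prop :=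
  ∃ C : ℝ, 0 < C ∧ ∀ N : ℝ, 1 ≤ N → ∀ (φ : Vec d → ℝ) (F : ℤ → Vec d) (ι : Type) [Fintype ι]
    (ω β : ι → Vec d) (s : ι → ℝ) (f : ι → Fin d → Space d),
    Family σ κ K S N φ F ω β s f → Good L l φ ω →
      ∀ p : ℝ≥0∞, ENNReal.ofReal q ≤ p → Ineq p C N ω β s f

/-- The statement for the critical exponent `(d+1)/d`, without loss, and for the exponents below it,
with a power of the logarithm. -/
def SmallExponents (d : ℕ) (σ κ K S L l : ℝ) : Prop :=
  ∃ C : ℝ, 0 < C ∧ ∀ N : ℝ, 1 ≤ N → ∀ (φ : Vec d → ℝ) (F : ℤ → Vec d) (ι : Type) [Fintype ι]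
    (ω β : ι → Vec d) (s : ι → ℝ) (f : ι → Fin d → Space d),
    Family σ κ K S N φ F ω β s f → Good L l φ ω →
      Ineq (ENNReal.ofReal (((d : ℝ) + 1) / d)) C N ω β s f ∧
      ∀ p : ℝ, 1 ≤ p → p < ((d : ℝ) + 1) / d →
        Ineq (ENNReal.ofReal p) (C * (1 + Real.log N) ^ ((d : ℝ) * (1 - 1 / p))) N ω β s f

theorem crit_eq {d : ℕ} (hd : 2 ≤ d) : ((d : ℝ) + 1) / d = 1 + 1 / (d : ℝ) := by
  have : (0 : ℝ) < d := by exact_mod_cast (by omega : 0 < d)
  field_simp

theorem small (d : ℕ) (hd : 2 ≤ d) (σ κ : ℝ) (hσ : 0 < σ) (hσ1 : σ ≤ 1) (hκ : 0 < κ) (K S L l : ℝ)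
    (hK : 0 ≤ K) (hS : 0 ≤ S) (hL : 0 ≤ L) (hl : 0 < l) : SmallExponents d σ κ K S L l := by
  obtain ⟨l', hl', hg⟩ := good_general (d := d) hL hl
  obtain ⟨E, hE0, hE⟩ := Pool.Agent.U515.CL.caps_crit (d := d) (by omega) hσ hσ1 hK
    (by positivity : 0 ≤ 5 * L) hl' ⟨S, hS⟩
  obtain ⟨C₁, hC₁, h1⟩ := Pool.Agent.R251.End.endpoint (d := d) (by omega) hκ hE0
  obtain ⟨C₂, hC₂, h2⟩ := Pool.Agent.R251.End.below (d := d) (by omega) hκ hE0
  have hC₂0 : 0 < C₂ := by linarith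
  refine ⟨C₁ + C₂, by positivity, ?_⟩
  intro N hN φ F ι _ ω β s f ⟨⟨hω, hsep, hcard, hf⟩, hs, hpos⟩ hgood
  have hN0 : 0 < N := by linarith
  have hc0 : (0 : ℝ) < (Fintype.card ι : ℝ) := lt_of_lt_of_le (by positivity) hcard
  have hne : Nonempty ι := by
    rw [← Fintype.card_pos_iff]
    exact_mod_cast hc0
  obtain ⟨g1, g2, g3⟩ := hg ι φ ω hω hgood
  have hQi := hE N hN φ g2 F ι ω β s f hω hsep hf hs hpos g1 g3
  have hlog : 0 ≤ Real.log N := Real.log_nonneg hN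
  rw [crit_eq hd]
  constructor
  · refine (h1 ι N hN ω f _ hcard hf hQi).trans ?_
    exact mul_le_mul' (ENNReal.ofReal_le_ofReal (by linarith)) le_rfl
  · intro p hp hpq
    refine (h2 ι N hN ω f _ hcard hf hQi p hp hpq.le).trans ?_
    refine mul_le_mul' (ENNReal.ofReal_le_ofReal ?_) le_rfl
    exact mul_le_mul_of_nonneg_right (by linarith) (by positivity)

theorem large_two (d : ℕ) (hd : 2 ≤ d) (σ κ : ℝ) (hσ : 0 < σ) (hσ1 : σ ≤ 1) (hκ : 0 < κ)
    (K S L l : ℝ) (hK : 0 ≤ K) (hS : 0 ≤ S) (hL : 0 ≤ L) (hl : 0 < l) (q : ℝ)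
    (hq : ((d : ℝ) + 1) / d < q) (hq2 : q ≤ 2) : LargeExponents d σ κ K S L l q := by
  have hd0 : (0 : ℝ) < d := by exact_mod_cast (by omega : 0 < d)
  rw [crit_eq hd] at hq
  have hq1 : 1 < q := by
    have : 0 < 1 / (d : ℝ) := by positivity
    linarith
  have hq0 : 0 < q := by linarith
  obtain ⟨l', hl', hg⟩ := good_general (d := d) hL hl
  obtain ⟨E, hE0, hE⟩ := Pool.Agent.U515.CL.caps_two (d := d) (by omega) hσ hσ1 hK
    (by positivity : 0 ≤ 5 * L) hl' ⟨S, hS⟩ hq hq2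
  have hw0 : 0 < Pool.Agent.H810R3.Tub.wv d := Pool.Agent.H810R3.Tub.wv_pos d
  set C0 : ℝ := max 1 (E * κ ^ (-(1 / (d : ℝ))) * 2 ^ (d + 1) / Pool.Agent.H810R3.Tub.wv d) with hC0
  have hC1 : 1 ≤ C0 := le_max_left _ _
  have hC3 : E * κ ^ (-(1 / (d : ℝ))) * 2 ^ (d + 1) / Pool.Agent.H810R3.Tub.wv d ≤ C0 := le_max_right _ _
  have hC00 : 0 < C0 := by linarith
  refine ⟨C0 ^ (1 / q), Real.rpow_pos_of_pos hC00 _, ?_⟩
  intro N hN φ F ι _ ω β s f ⟨⟨hω, hsep, hcard, hf⟩, hs, hpos⟩ hgood p hp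
  have hN0 : 0 < N := by linarith
  have hc0 : (0 : ℝ) < (Fintype.card ι : ℝ) := lt_of_lt_of_le (by positivity) hcard
  have hne : Nonempty ι := by
    rw [← Fintype.card_pos_iff]
    exact_mod_cast hc0
  obtain ⟨g1, g2, g3⟩ := hg ι φ ω hω hgood
  have hDq : (C0 ^ (1 / q)) ^ q = C0 := by
    rw [← Real.rpow_mul hC00.le, one_div_mul_cancel hq0.ne', Real.rpow_one]
  have hQi := hE N hN φ g2 F ι ω β s f hω hsep hf hs hpos g1 g3
  have hD1 : 1 ≤ C0 ^ (1 / q) := Real.one_le_rpow hC1 (by positivity)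
  refine Pool.Agent.R134.Kak.compare_large d hN hq1 hD1 ω f hf _ hQi ?_ p hp
  exact Pool.Agent.R134.Kak.arith_large hd0 hE0 hN hκ hcard hw0 (by rw [hDq]; exact hC3)

theorem large (d : ℕ) (hd : 2 ≤ d) (σ κ : ℝ) (hσ : 0 < σ) (hσ1 : σ ≤ 1) (hκ : 0 < κ)
    (K S L l : ℝ) (hK : 0 ≤ K) (hS : 0 ≤ S) (hL : 0 ≤ L) (hl : 0 < l) (q : ℝ)
    (hq : ((d : ℝ) + 1) / d < q) : LargeExponents d σ κ K S L l q := by
  have h2 : ((d : ℝ) + 1) / d < 2 := by
    have h1 : (2:ℝ) ≤ d := by exact_mod_cast hd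
    rw [div_lt_iff₀ (by linarith)]
    linarith
  obtain ⟨C, hC, h⟩ := large_two d hd σ κ hσ hσ1 hκ K S L l hK hS hL hl (min q 2)
    (lt_min hq h2) (min_le_right _ _)
  refine ⟨C, hC, ?_⟩
  intro N hN φ F ι _ ω β s f hF hgood p hp
  exact h N hN φ F ι ω β s f hF hgood p
    ((ENNReal.ofReal_le_ofReal (min_le_left _ _)).trans hp)

theorem all_exponents (d : ℕ) (hd : 2 ≤ d) (σ κ : ℝ) (hσ : 0 < σ) (hσ1 : σ ≤ 1) (hκ : 0 < κ)
    (K S L l : ℝ) (hK : 0 ≤ K) (hS : 0 ≤ S) (hL : 0 ≤ L) (hl : 0 < l) (ε : ℝ) (hε : 0 < ε) :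
    AllExponents d σ κ K S L l ε := by
  have hd0 : (0 : ℝ) < d := by exact_mod_cast (by omega : 0 < d)
  have hd2 : (2 : ℝ) ≤ d := by exact_mod_cast hd
  have hd1 : (1 : ℝ) ≤ d := by linarith
  set η : ℝ := min ε (1 / 2) with hη
  have hη0 : 0 < η := lt_min hε (by norm_num)
  have hηε : η ≤ ε := min_le_left _ _
  have hη2 : η ≤ 1 / 2 := min_le_right _ _
  have hdη : 0 < (d : ℝ) - η := by linarith
  set q : ℝ := ((d : ℝ) + 1) / (d - η) with hq
  have hq1 : 1 < q := by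
    rw [hq, lt_div_iff₀ hdη]
    linarith
  have hq2 : q ≤ 2 := by
    rw [hq, div_le_iff₀ hdη]
    linarith
  have hqc : 1 + 1 / (d : ℝ) < q := by
    rw [← crit_eq hd, hq]
    apply div_lt_div_of_pos_left (by positivity) hdη
    linarith
  have hηq : d * q - d - 1 = η * q := by
    have : q * (d - η) = d + 1 := div_mul_cancel₀ _ hdη.ne'
    linarith
  obtain ⟨l', hl', hg⟩ := good_general (d := d) hL hl
  obtain ⟨E, hE0, hE⟩ := Pool.Agent.U515.CL.caps_two (d := d) (by omega) hσ hσ1 hK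
    (by positivity : 0 ≤ 5 * L) hl' ⟨S, hS⟩ hqc hq2
  have hw0 : 0 < Pool.Agent.H810R3.Tub.wv d := Pool.Agent.H810R3.Tub.wv_pos d
  set b₀ : ℝ := (1 + (d : ℝ)) ^ (d + 1) * Pool.Agent.H810R3.Tub.wv d with hb₀
  have hb0 : 0 < b₀ := by positivity
  set C0 : ℝ := max 1 (max (E * b₀ ^ (q - 1) * κ ^ (-(1 / (d : ℝ))))
    (E * κ ^ (-(1 / (d : ℝ))) * 2 ^ (d + 1) / Pool.Agent.H810R3.Tub.wv d)) with hC0
  have hC1 : 1 ≤ C0 := le_max_left _ _
  have hC2 : E * b₀ ^ (q - 1) * κ ^ (-(1 / (d : ℝ))) ≤ C0 := (le_max_left _ _).trans (le_max_right _ _)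
  have hC3 : E * κ ^ (-(1 / (d : ℝ))) * 2 ^ (d + 1) / Pool.Agent.H810R3.Tub.wv d ≤ C0 :=
    (le_max_right _ _).trans (le_max_right _ _)
  have hC00 : 0 < C0 := by linarith
  have hq0 : 0 < q := by linarith
  refine ⟨C0 ^ (1 / q), Real.rpow_pos_of_pos hC00 _, ?_⟩
  intro N hN φ F ι _ ω β s f ⟨⟨hω, hsep, hcard, hf⟩, hs, hpos⟩ hgood p hp
  have hN0 : 0 < N := by linarith
  have hc0 : (0 : ℝ) < (Fintype.card ι : ℝ) := lt_of_lt_of_le (by positivity) hcard
  have hne : Nonempty ι := by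
    rw [← Fintype.card_pos_iff]
    exact_mod_cast hc0
  have hD1 : 1 ≤ C0 ^ (1 / q) * N ^ ε := by
    have h1 : 1 ≤ C0 ^ (1 / q) := Real.one_le_rpow hC1 (by positivity)
    have h3 : 1 ≤ N ^ ε := Real.one_le_rpow hN hε.le
    calc (1 : ℝ) = 1 * 1 := by ring
      _ ≤ C0 ^ (1 / q) * N ^ ε := by gcongr
  have hDq : (C0 ^ (1 / q) * N ^ ε) ^ q = C0 * 1 * N ^ (ε * q) := by
    rw [Real.mul_rpow (by positivity) (by positivity),
      ← Real.rpow_mul hC00.le, ← Real.rpow_mul hN0.le, one_div_mul_cancel hq0.ne', Real.rpow_one, mul_one]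
  obtain ⟨g1, g2, g3⟩ := hg ι φ ω hω hgood
  have hQi := hE N hN φ g2 F ι ω β s f hω hsep hf hs hpos g1 g3
  have hQi' : ∫⁻ y, Pool.Agent.H810R3.Tub.Fb N ω f
      (fun i => WithLp.toLp 2 (β i + s i • (-(2 : ℝ) • ω i), s i)) y ^ q ≤
      ENNReal.ofReal (E * 1 * N ^ (d + 2) * (Fintype.card ι : ℝ) ^ (q - 1 / (d : ℝ))) := by
    rw [mul_one]
    exact hQi
  refine Pool.Agent.H810R3.Tub.compare d hN hq1 (by positivity) hD1 ω f hf _ hQi' ?_ ?_ p hp
  · rw [hDq]
    exact Pool.Agent.H810R3.Tub.arith1 hd0 hE0 one_pos hq1 hηq hηε hN hκ hcard hb0 hC2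
  · rw [hDq]
    exact Pool.Agent.H810R3.Tub.arith2 hd0 hE0 one_pos hq1 hε hN hκ hcard hw0 hC3

/-- **The comparison for translates whose position is an arbitrary function of one function of the cap
centre.** -/
theorem result (d : ℕ) (hd : 2 ≤ d) (σ κ : ℝ) (hσ : 0 < σ) (hσ1 : σ ≤ 1) (hκ : 0 < κ)
    (K S L l : ℝ) (hK : 0 ≤ K) (hS : 0 ≤ S) (hL : 0 ≤ L) (hl : 0 < l) :
    (∀ ε : ℝ, 0 < ε → AllExponents d σ κ K S L l ε) ∧
    (∀ q : ℝ, ((d : ℝ) + 1) / d < q → LargeExponents d σ κ K S L l q) ∧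
    SmallExponents d σ κ K S L l :=
  ⟨fun ε hε => all_exponents d hd σ κ hσ hσ1 hκ K S L l hK hS hL hl ε hε,
    fun q hq => large d hd σ κ hσ hσ1 hκ K S L l hK hS hL hl q hq,
    small d hd σ κ hσ hσ1 hκ K S L l hK hS hL hl⟩

end Pool.Agent.Results.MP_ac5134_an.OneFunctionTranslates
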