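import Pool.Agent.U527.Rs.Vol
import Pool.Agent.R134.Kak.Large

set_option autoImplicit false

/-!
# MP_ac5134: iterated skew products of arbitrary families of translates

Work in `ℝ^n = ℝ^d × ℝ`, `n = d + 1`, with its Euclidean norm (`Space d`), and let `P` be the
paraboloid `{(ω, |ω|²)}`, `|ω| ≤ 1`.  The box dual to the cap at `ω` is `box N (nor ω) f 0`.  Every
translate of the box at `ω` is given by the point `(β, 0)` where its axis meets the hyperplane of
height `0` and by the height `s` of its centre.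

A family of translates is a *skew product* if in suitable orthonormal coordinates of `ℝ^d` the first
`k` coordinates of `β` depend, up to `K N`, only on the first `k` coordinates of `ω` (up to `σ/N`), in an
arbitrary way, and if for every cell of the first `k` coordinates of `ω` the family of the other
coordinates is again such a family, or an arbitrary family.

Let `w k` be an admissible exponent for blocks of `k` coordinates: `w k = 2k/(k+1)` (Wolff), the
exponent of the hybrid bound, or any value for which the tube inequality is known.  A block of `k`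
coordinates has the loss `k (1 - 1/w k)`, which is `(k-1)/2` for Wolff's exponent.  It is proved that
the losses of the blocks add: if their sum is at most `l`, then the comparison with the centred family
holds for all exponents with the loss `N^(l/n+ε)`, and the volume form with the loss `N^(l+ε)`.  With
Wolff's exponents every splitting gains one half over Wolff's bound.  There is no loss for the
exponents above `1 + W/(n-1)`, `W = max w k`.
-/

open MeasureTheory Set Filter Topology ENNReal NNReal Metric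

namespace Pool.Agent.Results.MP_ac5134_an.SkewProducts

/-- Euclidean space `ℝ^d`. -/
abbrev Vec (d : ℕ) : Type := EuclideanSpace ℝ (Fin d)

/-- Euclidean space `ℝ^{d+1}`, written as `ℝ^d × ℝ` with the Euclidean norm. -/
abbrev Space (d : ℕ) : Type := WithLp 2 (Vec d × ℝ)

/-- The unit normal `(-2ω, 1)/√(1+4|ω|²)` of the paraboloid at the point over `ω`. -/
noncomputable def nor {d : ℕ} (ω : Vec d) : Space d :=
  (√(1 + ‖-(2 : ℝ) • ω‖ ^ 2))⁻¹ • WithLp.toLp 2 (-(2 : ℝ) • ω, (1:ℝ))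

/-- The box with centre `a`, with one side of length `N²` in the direction `e` and with sides of length
`N` in the directions `f j`. -/
def box {d : ℕ} (N : ℝ) (e : Space d) (f : Fin d → Space d) (a : Space d) : Set (Space d) :=
  {y | |inner ℝ e (y - a)| ≤ N ^ 2 / 2 ∧ ∀ j, |inner ℝ (f j) (y - a)| ≤ N / 2}

/-- The caps have centres `ω i` in the closed unit ball, `σ/N`-separated and at least `κ N^d` in
number, and `f i` is an orthonormal frame of the orthogonal complement of the normal at `ω i`. -/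
def Caps {d : ℕ} {ι : Type} [Fintype ι] (σ κ N : ℝ) (ω : ι → Vec d) (f : ι → Fin d → Space d) : Prop :=
  (∀ i, ‖ω i‖ ≤ 1) ∧ (∀ i j, i ≠ j → σ / N ≤ ‖ω i - ω j‖) ∧ κ * N ^ d ≤ (Fintype.card ι : ℝ) ∧
    ∀ i, Orthonormal ℝ (Fin.cons (nor (ω i)) (f i) : Fin (d + 1) → Space d)

/-- The sum of the indicators of the boxes of the caps with centres `a i`. -/
noncomputable def boxSum {d : ℕ} {ι : Type} [Fintype ι] (N : ℝ) (ω : ι → Vec d)
    (f : ι → Fin d → Space d) (a : ι → Space d) (y : Space d) : ℝ :=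
  ∑ i, (box N (nor (ω i)) (f i) (a i)).indicator (fun _ => (1 : ℝ)) y

/-- Orthonormal coordinates of `ℝ^d`: a linear isometry of `ℝ^d` onto itself. -/
abbrev Iso (d : ℕ) : Type := Vec d ≃ₗᵢ[ℝ] Vec d

/-- The `j`-th coordinate of `x` in the orthonormal coordinates given by `U`. -/
noncomputable def coord {d : ℕ} (U : Iso d) (x : Vec d) (j : Fin d) : ℝ := U x j

/-- The vector of the first `k` coordinates of `x`, in the orthonormal coordinates given by `U`. -/
noncomputable def front (k d : ℕ) (U : Iso (k + d)) (x : Vec (k + d)) : Vec k :=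
  WithLp.toLp 2 (fun j => coord U x (Fin.castAdd d j))

/-- The vector of the last `d` coordinates of `x`, in the orthonormal coordinates given by `U`. -/
noncomputable def back (k d : ℕ) (U : Iso (k + d)) (x : Vec (k + d)) : Vec d :=
  WithLp.toLp 2 (fun j => coord U x (Fin.natAdd k j))

/-- The indices `i` in `J` such that the first `k` coordinates of `ω i`, in the coordinates given by
`U`, are in the intervals `[z j δ, (z j + 1) δ)`. -/
def cell (δ : ℝ) {ι : Type} (k d : ℕ) (U : Iso (k + d)) (J : Set ι) (ω : ι → Vec (k + d))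
    (z : Fin k → ℤ) : Set ι :=
  {i | i ∈ J ∧ ∀ j, z j * δ ≤ front k d U (ω i) j ∧ front k d U (ω i) j < (z j + 1) * δ}

/-- The coordinate of `y - a` in the direction `e`. -/
noncomputable def axial {d : ℕ} (a e y : Vec d) : ℝ := inner ℝ (y - a) e

/-- The `δ`-tube with centre `a` and direction `e` (a unit vector): the closed cylinder of length `1`
and radius `δ` around the segment with centre `a` and direction `e`. -/
def tube {d : ℕ} (δ : ℝ) (a e : Vec d) : Set (Vec d) :=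
  {y | |axial a e y| ≤ 1 / 2 ∧ ‖(y - a) - axial a e y • e‖ ≤ δ}

/-- The tube inequality in `ℝ^{k+1}` for the exponent `1 + c/k`, with arbitrarily small losses, for all
families of tubes with `δ`-separated directions. -/
def TubeInequality (k : ℕ) (c : ℝ) : Prop :=
  ∀ ε : ℝ, 0 < ε → ∃ C : ℝ, 0 ≤ C ∧ ∀ δ : ℝ, 0 < δ → δ < 1 → ∀ (ι : Type) [Fintype ι]
    (a e : ι → Vec (k + 1)), (∀ i, ‖e i‖ = 1) → (∀ i j, i ≠ j → δ ≤ ‖e i - e j‖) →
    ∫⁻ x, (∑ i, (tube δ (a i) (e i)).indicator 1 x) ^ (1 + c / (k : ℝ)) ≤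
      ENNReal.ofReal (C * (δ ^ (-ε) * (δ ^ k * (Fintype.card ι : ℝ) ^ (1 + c / (k : ℝ) - 1 / (k : ℝ)))))

/-- The condition of the hybrid bound in `ℝ^{k+1}`, with the weight `x`. -/
def Hybrid (k : ℕ) (x c : ℝ) : Prop :=
  9 ≤ k ∧ 0 ≤ x ∧ x ≤ 1 ∧ 1 < c ∧ 0 < k * (c ^ 3 - 4 * c + 2) + x * (c * (3 * c - 1 - c ^ 2)) ∧
    4 * c ^ 2 + 5 * c - 4 + x * (3 * c ^ 2 + 1) < k * (c ^ 2 - 1) + x * (3 * c - 1 - c ^ 2)

/-- The admissible exponents for blocks of `k` coordinates. -/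
def Exponent (k : ℕ) (c : ℝ) : Prop :=
  c = 2 * k / (k + 1) ∨ (∃ x : ℝ, Hybrid k x c) ∨ (2 ≤ k ∧ 1 ≤ c ∧ TubeInequality k c)

/-- The loss `k (1 - 1/w k)` of a block of `k` coordinates. -/
noncomputable def blockLoss (w : ℕ → ℝ) (k : ℕ) : ℝ := k * ((w k - 1) / w k)

/-- The family with the cap centres `ω i` and the positions `β i`, `i ∈ J`, in dimension `d`, is
obtained by splittings from arbitrary families, all blocks have at most `m` coordinates and the sum of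
their losses is at most `l`; `δ` is the scale for the cap centres and `ρ` the scale for the
positions. -/
inductive Skew (δ ρ : ℝ) (m : ℕ) (w : ℕ → ℝ) {ι : Type} :
    (l : ℝ) → (d : ℕ) → Set ι → (ι → Vec d) → (ι → Vec d) → Prop
  | free (l : ℝ) (d : ℕ) (J : Set ι) (ω β : ι → Vec d) (h1 : 1 ≤ d) (hd : d ≤ m)
      (hl : blockLoss w d ≤ l) : Skew δ ρ m w l d J ω β
  | split (l l' : ℝ) (k d : ℕ) (J : Set ι) (ω β : ι → Vec (k + d)) (hk : 1 ≤ k) (hkm : k ≤ m)
      (hl : blockLoss w k + l' ≤ l) (U : Iso (k + d))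
      (h1 : ∀ i ∈ J, ∀ i' ∈ J, (∀ j, |front k d U (ω i) j - front k d U (ω i') j| ≤ δ) →
        ∀ j, |front k d U (β i) j - front k d U (β i') j| ≤ ρ)
      (h2 : ∀ z : Fin k → ℤ, Skew δ ρ m w l' d (cell δ k d U J ω z) (fun i => back k d U (ω i))
        (fun i => back k d U (β i))) : Skew δ ρ m w l (k + d) J ω β

/-- If the first `k` coordinates of two cap centres agree up to `δ`, in the orthonormal coordinates
given by `U`, then the first `k` coordinates of the two positions agree up to `ρ`. -/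
def FrontDetermined (δ ρ : ℝ) (k d : ℕ) {ι : Type} (U : Iso (k + d)) (ω β : ι → Vec (k + d)) : Prop :=
  ∀ i i', (∀ j, |front k d U (ω i) j - front k d U (ω i') j| ≤ δ) →
    ∀ j, |front k d U (β i) j - front k d U (β i') j| ≤ ρ

theorem FrontDetermined.skew {δ ρ : ℝ} {w : ℕ → ℝ} {m k d : ℕ} {ι : Type} {U : Iso (k + d)} {ω β : ι → Vec (k + d)}
    (hk : 1 ≤ k) (hd : 1 ≤ d) (hkm : k ≤ m) (hdm : d ≤ m) (h : FrontDetermined δ ρ k d U ω β) :
    Skew δ ρ m w (blockLoss w k + blockLoss w d) (k + d) univ ω β :=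
  Skew.split _ (blockLoss w d) k d _ _ _ hk hkm le_rfl U (fun i _ i' _ h0 => h i i' h0)
    fun _ => Skew.free _ _ _ _ _ hd hdm le_rfl

theorem Skew.toRed {K δ N : ℝ} (hδ : 0 < δ) (hN : 0 < N) {ι : Type} {m : ℕ} {w : ℕ → ℝ} {l : ℝ} {d : ℕ}
    {I : Set ι} {v β : ι → Vec d} (h : Skew δ (K * N) m w l d I v β) : ∀ J : Finset ι, (J : Set ι) = I →
    Pool.Agent.U527.Rs.RedB K m w l d J (fun i => δ⁻¹ • v i) (fun i => N⁻¹ • β i) := by
  classical
  induction h with
  | free l d I v β h1 hd hl =>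
    intro J _
    exact Pool.Agent.U527.Rs.RedB.free _ _ _ _ _ h1 hd hl
  | split l l' k d I v β hk hkm hl U h1 h2 ih =>
    intro J hJ
    have hδ' : 0 < δ⁻¹ := inv_pos.2 hδ
    have hN' : 0 < N⁻¹ := inv_pos.2 hN
    have hf : ∀ (a : ℝ) (x : Vec (k + d)), Pool.Agent.U527.Rs.fst k d (U (a • x)) = a • front k d U x := by
      intro a x
      rw [map_smul]
      rfl
    have hb : ∀ (a : ℝ) (x : Vec (k + d)), Pool.Agent.U527.Rs.snd k d (U (a • x)) = a • back k d U x := by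
      intro a x
      rw [map_smul]
      rfl
    have hsm : ∀ (a : ℝ) (x : Vec k) (j : Fin k), (a • x) j = a * x j := fun _ _ _ => rfl
    refine Pool.Agent.U527.Rs.RedB.split l l' k d J _ _ hk hkm hl U ?_ ?_
    · intro i hi i' hi' h0 j
      rw [← Finset.mem_coe, hJ] at hi hi'
      have h3 := h1 i hi i' hi' (by
        intro l
        have h4 := h0 l
        rw [hf, hf, hsm, hsm, ← mul_sub, abs_mul, abs_of_pos hδ', inv_mul_le_iff₀ hδ] at h4
        linarith) j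
      rw [hf, hf, hsm, hsm, ← mul_sub, abs_mul, abs_of_pos hN', inv_mul_le_iff₀ hN]
      linarith
    · intro z
      have h3 := ih z (J.filter (fun i => Pool.Agent.U527.Rs.cellv
        (Pool.Agent.U527.Rs.fst k d (U (δ⁻¹ • v i))) = z)) (by
        ext i
        rw [Finset.mem_coe, Finset.mem_filter, ← Finset.mem_coe, hJ]
        show _ ↔ i ∈ I ∧ ∀ j, z j * δ ≤ front k d U (v i) j ∧ front k d U (v i) j < (z j + 1) * δ
        rw [hf, funext_iff]
        refine and_congr_right fun _ => forall_congr' fun j => ?_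
        show ⌊(δ⁻¹ • front k d U (v i)) j⌋ = z j ↔ _
        rw [hsm, Int.floor_eq_iff, inv_mul_eq_div, le_div_iff₀ hδ, div_lt_iff₀ hδ])
      have e1 : (fun i => Pool.Agent.U527.Rs.snd k d (U (δ⁻¹ • v i))) = fun i => δ⁻¹ • back k d U (v i) :=
        funext fun i => hb _ _
      have e2 : (fun i => Pool.Agent.U527.Rs.snd k d (U (N⁻¹ • β i))) = fun i => N⁻¹ • back k d U (β i) :=
        funext fun i => hb _ _
      simp only [e1, e2]
      exact h3

theorem Exponent.base {k : ℕ} (hk : 1 ≤ k) {c : ℝ} (h : Exponent k c) :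
    1 ≤ c ∧ Pool.Agent.U527.Rs.BaseD k c := by
  have hk1 : (1 : ℝ) ≤ k := by exact_mod_cast hk
  rcases h with h | ⟨x, h9, h0, h1, hc, ha, hb⟩ | ⟨h2, h1, hT⟩
  · subst h
    refine ⟨?_, Pool.Agent.U527.Rs.BaseD.wolff' hk⟩
    rw [le_div_iff₀ (by positivity)]
    linarith
  · exact ⟨hc.le, Pool.Agent.U527.Rs.BaseD.hybrid h9 ⟨h0, h1, hc, ha, hb⟩⟩
  · exact ⟨h1, Pool.Agent.U527.Rs.BaseD.hyp h2 h1 hT⟩

theorem adm {m : ℕ} {w : ℕ → ℝ} (hw : ∀ k, 1 ≤ k → k ≤ m → Exponent k (w k)) :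
    Pool.Agent.U527.Rs.Adm m w := fun k hk hkm => (hw k hk hkm).base hk

/-- The loss of a block with Wolff's exponent. -/
theorem blockLoss_wolff {w : ℕ → ℝ} {k : ℕ} (hk : 1 ≤ k) (h : w k = 2 * k / (k + 1)) :
    blockLoss w k = ((k : ℝ) - 1) / 2 := by
  have h0 : (0 : ℝ) < k := by exact_mod_cast hk
  unfold blockLoss
  rw [h]
  field_simp
  ring

/-- The family: caps with `Caps σ κ N ω f`, heights `s i` of the centres of the translates at most
`S N²` and positions `β i` obtained by splittings, with blocks of at most `m` coordinates and total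
loss at most `l`, with the constant `K`. -/
def Family {d : ℕ} {ι : Type} [Fintype ι] (σ κ K S N : ℝ) (m : ℕ) (w : ℕ → ℝ) (l : ℝ)
    (ω β : ι → Vec d) (s : ι → ℝ)
    (f : ι → Fin d → Space d) : Prop :=
  Caps σ κ N ω f ∧ (∀ i, |s i| ≤ S * N ^ 2) ∧ Skew (σ / N) (K * N) m w l d univ ω β

/-- The centre, at the height `s`, of the translate of the box at `ω` with the position `β`. -/
def centre {d : ℕ} (ω β : Vec d) (s : ℝ) : Space d := WithLp.toLp 2 (β + s • (-(2 : ℝ) • ω), s)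

/-- The comparison of the `L^p` norms with the constant `C`. -/
def Ineq {d : ℕ} {ι : Type} [Fintype ι] (p : ℝ≥0∞) (C N : ℝ) (ω β : ι → Vec d) (s : ι → ℝ)
    (f : ι → Fin d → Space d) : Prop :=
  eLpNorm (boxSum N ω f (fun i => centre (ω i) (β i) (s i))) p volume ≤
    ENNReal.ofReal C * eLpNorm (boxSum N ω f 0) p volume

/-- The volume form with the constant `c`. -/
def VolumeForm {d : ℕ} {ι : Type} [Fintype ι] (c N : ℝ) (ω β : ι → Vec d) (s : ι → ℝ)
    (f : ι → Fin d → Space d) : Prop :=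
  ENNReal.ofReal c * ∑ i, volume (box N (nor (ω i)) (f i) (centre (ω i) (β i) (s i))) ≤
    volume (⋃ i, box N (nor (ω i)) (f i) (centre (ω i) (β i) (s i)))

theorem Ineq.mono {d : ℕ} {ι : Type} [Fintype ι] {p : ℝ≥0∞} {C C' N : ℝ} {ω β : ι → Vec d} {s : ι → ℝ}
    {f : ι → Fin d → Space d} (h : Ineq p C N ω β s f) (hC : C ≤ C') : Ineq p C' N ω β s f :=
  le_trans h (mul_le_mul' (ENNReal.ofReal_le_ofReal hC) le_rfl)

theorem card_pos_of {d : ℕ} {σ κ N : ℝ} (hκ : 0 < κ) (hN : 1 ≤ N) {ι : Type} [Fintype ι]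
    {ω : ι → Vec d} {f : ι → Fin d → Space d} (h : Caps σ κ N ω f) : Nonempty ι := by
  have hN0 : 0 < N := by linarith
  have hc0 : (0 : ℝ) < (Fintype.card ι : ℝ) := lt_of_lt_of_le (by positivity) h.2.2.1
  rw [← Fintype.card_pos_iff]
  exact_mod_cast hc0

theorem red_of {d : ℕ} {σ κ K S N : ℝ} {m : ℕ} {w : ℕ → ℝ} {l : ℝ} (hσ : 0 < σ) (hN : 0 < N) {ι : Type} [Fintype ι]
    {ω β : ι → Vec d} {s : ι → ℝ} {f : ι → Fin d → Space d} (h : Family σ κ K S N m w l ω β s f) :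
    Pool.Agent.U527.Rs.RedB K m w l d Finset.univ (fun i => (N / σ) • ω i) (fun i => N⁻¹ • β i) := by
  have h1 := Skew.toRed (δ := σ / N) (N := N) (by positivity) hN h.2.2 Finset.univ Finset.coe_univ
  rwa [inv_div] at h1

/-- **Large exponents.** -/
theorem large_exponents {d : ℕ} (hd : 1 ≤ d) {m : ℕ} {w : ℕ → ℝ} (hw : Pool.Agent.U527.Rs.Adm m w) (l : ℝ)
    (σ κ : ℝ) (hσ : 0 < σ) (hσ1 : σ ≤ 1) (hκ : 0 < κ) (K S : ℝ≥0) {W : ℝ}
    (hW : ∀ k, 1 ≤ k → k ≤ m → w k ≤ W) (q : ℝ) (hq : 1 + W / (d : ℝ) < q) : ∃ C : ℝ, 0 < C ∧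
      ∀ N : ℝ, 1 ≤ N → ∀ (ι : Type) [Fintype ι] (ω β : ι → Vec d) (s : ι → ℝ) (f : ι → Fin d → Space d),
      Family σ κ K S N m w l ω β s f → ∀ p : ℝ≥0∞, ENNReal.ofReal q ≤ p → Ineq p C N ω β s f := by
  have hd0 : (0 : ℝ) < d := by exact_mod_cast hd
  rcases Nat.eq_zero_or_pos m with hm | hm
  · refine ⟨1, one_pos, ?_⟩
    intro N _ ι _ ω β s f h
    exfalso
    have h1 := h.2.2
    rw [hm] at h1
    cases h1 with
    | free _ _ _ _ _ h1 hd => omega
    | split _ _ k d _ _ _ hk hkm _ U h1 h2 => omega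
  have hW1 : 1 ≤ W := (hw 1 le_rfl hm).1.trans (hW 1 le_rfl hm)
  have hq1 : 1 < q := by
    have : 0 < W / (d : ℝ) := div_pos (by linarith) hd0
    linarith
  have hq0 : 0 < q := by linarith
  obtain ⟨E, hE0, hE⟩ := Pool.Agent.U527.Rs.box_intD hd hw hW1 hW hq hσ hσ1 K S
  have hw0 : 0 < Pool.Agent.H810R3.Tub.wv d := Pool.Agent.H810R3.Tub.wv_pos d
  set C0 : ℝ := max 1 (E * κ ^ (-(1 / (d : ℝ))) * 2 ^ (d + 1) / Pool.Agent.H810R3.Tub.wv d) with hC0
  have hC1 : 1 ≤ C0 := le_max_left _ _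
  have hC3 : E * κ ^ (-(1 / (d : ℝ))) * 2 ^ (d + 1) / Pool.Agent.H810R3.Tub.wv d ≤ C0 := le_max_right _ _
  have hC00 : 0 < C0 := by linarith
  refine ⟨C0 ^ (1 / q), Real.rpow_pos_of_pos hC00 _, ?_⟩
  intro N hN ι _ ω β s f hF p hp
  have hN0 : 0 < N := by linarith
  have hne : Nonempty ι := card_pos_of hκ hN hF.1
  have hRed := red_of hσ hN0 hF
  obtain ⟨⟨hω, hsep, hcard, hf⟩, hs, -⟩ := hF
  have hDq : (C0 ^ (1 / q)) ^ q = C0 := by
    rw [← Real.rpow_mul hC00.le, one_div_mul_cancel hq0.ne', Real.rpow_one]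
  have hQi := hE N hN ι ω β s f hω hsep hf hs ⟨l, hRed⟩
  have hD1 : 1 ≤ C0 ^ (1 / q) := Real.one_le_rpow hC1 (by positivity)
  refine Pool.Agent.R134.Kak.compare_large d hN hq1 hD1 ω f hf _ hQi ?_ p hp
  exact Pool.Agent.R134.Kak.arith_large hd0 hE0 hN hκ hcard hw0 (by rw [hDq]; exact hC3)

/-- The classes with a negative loss are empty. -/
theorem loss_nonneg {d : ℕ} {m : ℕ} {w : ℕ → ℝ} (hw : Pool.Agent.U527.Rs.Adm m w) {l : ℝ} {σ κ K S N : ℝ}
    (hσ : 0 < σ) (hN : 1 ≤ N) {ι : Type} [Fintype ι] {ω β : ι → Vec d} {s : ι → ℝ}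
    {f : ι → Fin d → Space d} (h : Family σ κ K S N m w l ω β s f) : 0 ≤ l :=
  ((red_of hσ (by linarith) h).pos fun k hk hkm => (hw k hk hkm).1).2

/-- **All exponents.** -/
theorem all_exponents {d : ℕ} (hd : 1 ≤ d) {m : ℕ} {w : ℕ → ℝ} (hw : Pool.Agent.U527.Rs.Adm m w) (l : ℝ)
    (σ κ : ℝ) (hσ : 0 < σ) (hσ1 : σ ≤ 1) (hκ : 0 < κ) (K S : ℝ≥0) (ε : ℝ) (hε : 0 < ε) : ∃ C : ℝ, 0 < C ∧
      ∀ N : ℝ, 1 ≤ N → ∀ (ι : Type) [Fintype ι] (ω β : ι → Vec d) (s : ι → ℝ) (f : ι → Fin d → Space d),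
      Family σ κ K S N m w l ω β s f → ∀ p : ℝ≥0∞, 1 ≤ p →
        Ineq p (C * N ^ (l / (d + 1) + ε)) N ω β s f := by
  have hd0 : (0 : ℝ) < d := by exact_mod_cast hd
  have hd1 : (1 : ℝ) ≤ d := by exact_mod_cast hd
  by_cases hl0 : 0 ≤ l
  swap
  · refine ⟨1, one_pos, ?_⟩
    intro N hN ι _ ω β s f h
    exact absurd (loss_nonneg hw hσ hN h) hl0
  -- the exponents
  obtain ⟨ε', hε'⟩ : ∃ ε' : ℝ, ε' = ε / 2 := ⟨_, rfl⟩
  have hε'0 : 0 < ε' := by rw [hε']; linarith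
  obtain ⟨μ, hμ⟩ : ∃ μ : ℝ, μ = l + ε' * (d + 1) := ⟨_, rfl⟩
  have hμl : l < μ := by
    rw [hμ]
    have : 0 < ε' * ((d : ℝ) + 1) := by positivity
    linarith
  have hμ0 : 0 < μ := by linarith
  set η : ℝ := min ε' (1 / 2) with hη
  have hη0 : 0 < η := lt_min hε'0 (by norm_num)
  have hηε : η ≤ ε' := min_le_left _ _
  have hη2 : η ≤ 1 / 2 := min_le_right _ _
  have hdη : 0 < (d : ℝ) - η := by linarith
  set q : ℝ := ((d : ℝ) + 1) / (d - η) with hq
  have hq1 : 1 < q := by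
    rw [hq, lt_div_iff₀ hdη]
    linarith
  have hqd : ((d : ℝ) + 1) / d < q := by
    rw [hq]
    apply div_lt_div_of_pos_left (by positivity) hdη
    linarith
  have hqc : 1 + 1 / (d : ℝ) < q := by
    have h1 : 1 + 1 / (d : ℝ) = ((d : ℝ) + 1) / d := by field_simp
    rw [h1]
    exact hqd
  have hηq : d * q - d - 1 = η * q := by
    have : q * (d - η) = d + 1 := div_mul_cancel₀ _ hdη.ne'
    linarith
  obtain ⟨E, hE0, hE⟩ := Pool.Agent.U527.Rs.box_intL hd hw hqc hμl hσ hσ1 K S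
  have hw0 : 0 < Pool.Agent.H810R3.Tub.wv d := Pool.Agent.H810R3.Tub.wv_pos d
  set b₀ : ℝ := (1 + (d : ℝ)) ^ (d + 1) * Pool.Agent.H810R3.Tub.wv d with hb₀
  have hb0 : 0 < b₀ := by positivity
  set C0 : ℝ := max 1 (max (E * b₀ ^ (q - 1) * κ ^ (-(1 / (d : ℝ))))
    (E * κ ^ (-(1 / (d : ℝ))) * 2 ^ (d + 1) / Pool.Agent.H810R3.Tub.wv d)) with hC0
  have hC1 : 1 ≤ C0 := le_max_left _ _
  have hC2 : E * b₀ ^ (q - 1) * κ ^ (-(1 / (d : ℝ))) ≤ C0 := (le_max_left _ _).trans (le_max_right _ _)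
  have hC3 : E * κ ^ (-(1 / (d : ℝ))) * 2 ^ (d + 1) / Pool.Agent.H810R3.Tub.wv d ≤ C0 :=
    (le_max_right _ _).trans (le_max_right _ _)
  have hC00 : 0 < C0 := by linarith
  have hq0 : 0 < q := by linarith
  refine ⟨C0 ^ (1 / q), Real.rpow_pos_of_pos hC00 _, ?_⟩
  intro N hN ι _ ω β s f hF p hp
  have hN0 : 0 < N := by linarith
  have hne : Nonempty ι := card_pos_of hκ hN hF.1
  have hRed := red_of hσ hN0 hF
  obtain ⟨⟨hω, hsep, hcard, hf⟩, hs, -⟩ := hF
  have hY : 0 < N ^ (μ / d) := Real.rpow_pos_of_pos hN0 _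
  obtain ⟨D, hD⟩ : ∃ D : ℝ, D = C0 ^ (1 / q) * (N ^ (μ / d)) ^ (1 / q) * N ^ ε' := ⟨_, rfl⟩
  have hY1 : 1 ≤ (N ^ (μ / d)) ^ (1 / q) :=
    Real.one_le_rpow (Real.one_le_rpow hN (by positivity)) (by positivity)
  have hD1 : 1 ≤ D := by
    have h1 : 1 ≤ C0 ^ (1 / q) := Real.one_le_rpow hC1 (by positivity)
    have h3 : 1 ≤ N ^ ε' := Real.one_le_rpow hN hε'0.le
    rw [hD]
    calc (1 : ℝ) = 1 * 1 * 1 := by ring
      _ ≤ _ := by gcongr
  have hDq : D ^ q = C0 * N ^ (μ / d) * N ^ (ε' * q) := by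
    have a1 : (C0 ^ (1 / q)) ^ q = C0 := by
      rw [← Real.rpow_mul hC00.le, one_div_mul_cancel hq0.ne', Real.rpow_one]
    have a2 : ((N ^ (μ / (d : ℝ))) ^ (1 / q)) ^ q = N ^ (μ / (d : ℝ)) := by
      rw [← Real.rpow_mul hY.le, one_div_mul_cancel hq0.ne', Real.rpow_one]
    rw [hD, Real.mul_rpow (by positivity) (by positivity), Real.mul_rpow (by positivity) (by positivity),
      a1, a2, ← Real.rpow_mul hN0.le]
  have hQi := hE N hN ι ω β s f hω hsep hf hs hRed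
  have hmain : Ineq p D N ω β s f := by
    refine Pool.Agent.H810R3.Tub.compare d hN hq1 (by positivity) hD1 ω f hf _ hQi ?_ ?_ p hp
    · rw [hDq]
      exact Pool.Agent.H810R3.Tub.arith1 hd0 hE0 hY hq1 hηq hηε hN hκ hcard hb0 hC2
    · rw [hDq]
      exact Pool.Agent.H810R3.Tub.arith2 hd0 hE0 hY hq1 hε'0 hN hκ hcard hw0 hC3
  refine hmain.mono ?_
  rw [hD, ← Real.rpow_mul hN0.le, mul_assoc, ← Real.rpow_add hN0]
  apply mul_le_mul_of_nonneg_left _ (by positivity)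
  apply Real.rpow_le_rpow_of_exponent_le hN
  have h1 : μ / d * (1 / q) ≤ μ / (d + 1) := by
    have h2 : ((d : ℝ) + 1) ≤ d * q := by
      rw [div_lt_iff₀ hd0] at hqd
      linarith
    have h3 : μ / d * (1 / q) = μ / (d * q) := by field_simp
    rw [h3]
    exact div_le_div_of_nonneg_left hμ0.le (by positivity) h2
  have h2 : μ / ((d : ℝ) + 1) = l / (d + 1) + ε' := by
    rw [hμ]
    field_simp
  linarith

/-- **The volume form.** -/
theorem volume_form {d : ℕ} (hd : 1 ≤ d) {m : ℕ} {w : ℕ → ℝ} (hw : Pool.Agent.U527.Rs.Adm m w) (l : ℝ)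
    (σ κ : ℝ) (hσ : 0 < σ) (hσ1 : σ ≤ 1) (hκ : 0 < κ) (K S : ℝ≥0) (ε : ℝ) (hε : 0 < ε) : ∃ c : ℝ, 0 < c ∧
      ∀ N : ℝ, 1 ≤ N → ∀ (ι : Type) [Fintype ι] (ω β : ι → Vec d) (s : ι → ℝ) (f : ι → Fin d → Space d),
      Family σ κ K S N m w l ω β s f → VolumeForm (c * N ^ (-l - ε)) N ω β s f := by
  have hd0 : (0 : ℝ) < d := by exact_mod_cast hd
  by_cases hl0 : 0 ≤ l
  swap
  · refine ⟨1, one_pos, ?_⟩
    intro N hN ι _ ω β s f h
    exact absurd (loss_nonneg hw hσ hN h) hl0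
  obtain ⟨E, hE0, hE⟩ := Pool.Agent.U527.Rs.box_intL hd hw (q := 1 + 1 / (d : ℝ) + ε / (2 * d ^ 2))
    (by
      have : 0 < ε / (2 * (d : ℝ) ^ 2) := by positivity
      linarith) (l := l) (μ := l + ε / 2) (by linarith) hσ hσ1 K S
  obtain ⟨c, hc, h⟩ := Pool.Agent.U527.Rs.union_bound hd hE0
    (C₁ := (2 * ((d : ℝ) + 2)) ^ d * (6 / σ) ^ d) (by positivity) hl0 hε
  refine ⟨c, hc, ?_⟩
  intro N hN ι _ ω β s f hF
  have hN0 : 0 < N := by linarith
  have hne : Nonempty ι := card_pos_of hκ hN hF.1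
  have hRed := red_of hσ hN0 hF
  obtain ⟨⟨hω, hsep, hcard, hf⟩, hs, -⟩ := hF
  exact h N hN ι ω f (fun i => centre (ω i) (β i) (s i)) hf
    (Pool.Agent.U527.Rs.card_centres hσ hσ1 hN ω hω hsep) (hE N hN ι ω β s f hω hsep hf hs hRed)

/-- **Iterated skew products of arbitrary families of translates.**  The last two parts say that the
theorem applies if the first `k` coordinates of the positions are determined by the first `k`
coordinates of the cap centres, and give the losses for Wolff's exponents. -/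
theorem result (d m : ℕ) (hd : 1 ≤ d) (w : ℕ → ℝ) (hw : ∀ k, 1 ≤ k → k ≤ m → Exponent k (w k)) (l : ℝ)
    (σ κ : ℝ) (hσ : 0 < σ) (hσ1 : σ ≤ 1) (hκ : 0 < κ) (K S : ℝ≥0) :
    (∀ W : ℝ, (∀ k, 1 ≤ k → k ≤ m → w k ≤ W) → ∀ q : ℝ, 1 + W / d < q → ∃ C : ℝ, 0 < C ∧ ∀ N : ℝ, 1 ≤ N →
      ∀ (ι : Type) [Fintype ι] (ω β : ι → Vec d) (s : ι → ℝ) (f : ι → Fin d → Space d),
      Family σ κ K S N m w l ω β s f → ∀ p : ℝ≥0∞, ENNReal.ofReal q ≤ p → Ineq p C N ω β s f) ∧
    (∀ ε : ℝ, 0 < ε → ∃ C : ℝ, 0 < C ∧ ∀ N : ℝ, 1 ≤ N → ∀ (ι : Type) [Fintype ι]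
      (ω β : ι → Vec d) (s : ι → ℝ) (f : ι → Fin d → Space d), Family σ κ K S N m w l ω β s f →
      ∀ p : ℝ≥0∞, 1 ≤ p → Ineq p (C * N ^ (l / (d + 1) + ε)) N ω β s f) ∧
    (∀ ε : ℝ, 0 < ε → ∃ c : ℝ, 0 < c ∧ ∀ N : ℝ, 1 ≤ N → ∀ (ι : Type) [Fintype ι]
      (ω β : ι → Vec d) (s : ι → ℝ) (f : ι → Fin d → Space d), Family σ κ K S N m w l ω β s f →
      VolumeForm (c * N ^ (-l - ε)) N ω β s f) ∧
    (∀ (δ ρ : ℝ) (k k' : ℕ) (ι : Type) (ω β : ι → Vec (k + k')) (U : Iso (k + k')), 1 ≤ k → 1 ≤ k' →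
      k ≤ m → k' ≤ m → FrontDetermined δ ρ k k' U ω β →
      Skew δ ρ m w (blockLoss w k + blockLoss w k') (k + k') univ ω β) ∧
    ∀ k : ℕ, 1 ≤ k → w k = 2 * k / (k + 1) → blockLoss w k = ((k : ℝ) - 1) / 2 :=
  ⟨fun _ hW q hq => large_exponents hd (adm hw) l σ κ hσ hσ1 hκ K S hW q hq,
    fun ε hε => all_exponents hd (adm hw) l σ κ hσ hσ1 hκ K S ε hε,
    fun ε hε => volume_form hd (adm hw) l σ κ hσ hσ1 hκ K S ε hε,
    fun _ _ _ _ _ _ _ _ hk hl hkm hlm h => h.skew hk hl hkm hlm,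
    fun _ hk h => blockLoss_wolff hk h⟩

end Pool.Agent.Results.MP_ac5134_an.SkewProducts
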