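import Pool.Agent.U527.Srf.Sharp

set_option autoImplicit false

/-!
# MP_ac5134: the Kakeya maximal estimate (dual to the tube inequality) at the exponent `n - m + 1` for the tubes that meet an
`m`-dimensional set, in `ℝ^n`

`setMax δ S f e` is the Kakeya maximal function `f^*_δ (e)` in which the supremum is restricted to the
tubes whose axis line passes within `δ` of a point of the set `S`; which point, and where the tube lies
on the line, is an arbitrary function of the direction `e`.  The conjecture gives, for the exponents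
`p ≤ n`, the loss `δ^(-(n - p))` for the `p`-th powers of the norms.

Let `1 ≤ m ≤ n - 2` and let `S` be covered by curves `Γ u`, `u ∈ U ⊆ ℝ^(m-1)`, of order at most `N`
(almost every hyperplane of every direction meets the curve at most `N` times), such that `Γ u` is a
Lipschitz function of `u` and `u` is a Lipschitz function on the union of the curves.  No smoothness, no
curvature and no boundedness is assumed.  All polynomial graphs over the `m`-dimensional unit cube are of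
this kind.

1. For the exponent `p = n - m + 1` the maximal function satisfies the estimate of the conjecture, with a
   logarithmic loss; for `p ≥ n - m + 1` it satisfies the estimate with the same constant.
2. The power of `δ` is optimal at `p = n - m + 1`, for every nonempty set `S` (and for every `p` no power
   below `δ^(-(n - p))` is possible).
3. Polynomial graphs of dimension `m` and degree `N` satisfy the hypothesis.

For `m = 1` this is the theorem `TubesMeetingCurve` (then `p = n`).  For `m < n / 2` the exponent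
`n - m + 1` is larger than the exponent `(n + 2) / 2` which is known for all tubes.
-/

open MeasureTheory Set Metric
open scoped ENNReal

namespace Pool.Agent.Results.MP_ac5134_an.SurfaceTubes

/-- The closed tube of length `1` and radius `δ` with centre `b` and axis direction `e`. -/
def tube {n : ℕ} (δ : ℝ) (e b : EuclideanSpace ℝ (Fin n)) : Set (EuclideanSpace ℝ (Fin n)) :=
  {y | |inner ℝ (y - b) e| ≤ 1 / 2 ∧ ‖(y - b) - (inner ℝ (y - b) e : ℝ) • e‖ ≤ δ}

/-- Supremum of the averages of `|f|` over the `δ`-tubes with direction `e` whose axis line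
(through the centre `a`) passes at distance at most `δ` from a point `x` of the set `S`. -/
noncomputable def setMax {n : ℕ} (δ : ℝ) (S : Set (EuclideanSpace ℝ (Fin n)))
    (f : EuclideanSpace ℝ (Fin n) → ℝ) (e : EuclideanSpace ℝ (Fin n)) : ℝ≥0∞ :=
  ⨆ (a : EuclideanSpace ℝ (Fin n)) (x : EuclideanSpace ℝ (Fin n)) (_ : x ∈ S)
    (_ : ‖(a - x) - (inner ℝ (a - x) e : ℝ) • e‖ ≤ δ),
      (volume (tube δ e a))⁻¹ * ∫⁻ y in tube δ e a, ‖f y‖ₑ

/-- The curve `γ` is of order at most `N`: for every direction `ν ≠ 0`, almost every hyperplane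
orthogonal to `ν` meets the curve at most `N` times. -/
def OrderLE {n : ℕ} (N : ℕ) (γ : ℝ → EuclideanSpace ℝ (Fin n)) : Prop :=
  ∀ ν : EuclideanSpace ℝ (Fin n), ν ≠ 0 → ∀ᵐ c : ℝ, {t : ℝ | inner ℝ ν (γ t) = c}.encard ≤ N

/-- `S` is covered by a `k`-parameter family of continuous curves `Γ u`, `u ∈ U`, of order at most `N`;
`Γ u t` is Lipschitz in `u`, and `u` is a Lipschitz function of the point `Γ u t`. -/
def Foliated {n : ℕ} (k N : ℕ) (L : ℝ) (S : Set (EuclideanSpace ℝ (Fin n))) : Prop :=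
  ∃ (U : Set (Fin k → ℝ)) (Γ : (Fin k → ℝ) → ℝ → EuclideanSpace ℝ (Fin n)),
    (∀ x ∈ S, ∃ u ∈ U, ∃ t, Γ u t = x) ∧
    (∀ u ∈ U, Continuous (Γ u) ∧ OrderLE N (Γ u)) ∧
    (∀ u ∈ U, ∀ u' ∈ U, ∀ t, ‖Γ u t - Γ u' t‖ ≤ L * ‖u - u'‖) ∧
    (∀ u ∈ U, ∀ u' ∈ U, ∀ t t', ‖u - u'‖ ≤ L * ‖Γ u t - Γ u' t'‖)

/-- The graph, over the unit cube of dimension `m ≤ n`, of the polynomial map with the components `Q i`,
`m ≤ i < n`, in `ℝ^n`. -/
def graph {n m : ℕ} (hm : m ≤ n) (Q : Fin n → MvPolynomial (Fin m) ℝ) :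
    Set (EuclideanSpace ℝ (Fin n)) :=
  {x | (∀ i : Fin n, (i : ℕ) < m → x i ∈ Icc (0:ℝ) 1) ∧
    ∀ i : Fin n, m ≤ (i : ℕ) → x i = MvPolynomial.eval (fun j : Fin m => x (Fin.castLE hm j)) (Q i)}

/-- **The Kakeya maximal estimate at the exponent `n - m + 1` for the tubes meeting an
`m`-dimensional set foliated by curves of finite order.** -/
theorem result (n m : ℕ) (hm : 1 ≤ m) (hn : m + 2 ≤ n) :
    -- the estimate
    (∀ L : ℝ, ∃ C : ℝ, 0 < C ∧ ∀ (N : ℕ) (S : Set (EuclideanSpace ℝ (Fin n))) (δ : ℝ)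
      (f : EuclideanSpace ℝ (Fin n) → ℝ) (p : ℝ),
      Foliated (m - 1) N L S → 0 < δ → δ < 1 → AEMeasurable f volume → (n:ℝ) - m + 1 ≤ p →
      ∫⁻ e : sphere (0 : EuclideanSpace ℝ (Fin n)) 1, setMax δ S f e ^ p
          ∂(volume : Measure (EuclideanSpace ℝ (Fin n))).toSphere
        ≤ ENNReal.ofReal (C * (N + 1) * (1 + Real.log (N + 1)) ^ 2
            * (1 + Real.log (1 / δ)) ^ (n - m + 3) * (1 / δ) ^ (m - 1)) * ∫⁻ y, ‖f y‖ₑ ^ p) ∧
    -- the power of `δ` is optimal at the exponent `p = n - m + 1`, where `n - p = m - 1`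
    (∀ p : ℝ, 0 < p → ∃ c : ℝ, 0 < c ∧
      ∀ (S : Set (EuclideanSpace ℝ (Fin n))), S.Nonempty → ∀ δ : ℝ, 0 < δ → δ < 1 →
      ∃ f : EuclideanSpace ℝ (Fin n) → ℝ, Measurable f ∧
        (∫⁻ y, ‖f y‖ₑ ^ p) ≠ 0 ∧ (∫⁻ y, ‖f y‖ₑ ^ p) ≠ ∞ ∧
        ENNReal.ofReal (c * (1 / δ) ^ ((n:ℝ) - p)) * ∫⁻ y, ‖f y‖ₑ ^ p
          ≤ ∫⁻ e : sphere (0 : EuclideanSpace ℝ (Fin n)) 1, setMax δ S f e ^ p
            ∂(volume : Measure (EuclideanSpace ℝ (Fin n))).toSphere) ∧
    -- polynomial graphs satisfy the hypothesis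
    (∀ (N : ℕ) (Q : Fin n → MvPolynomial (Fin m) ℝ), 1 ≤ N → (∀ i, (Q i).totalDegree ≤ N) →
      ∃ L : ℝ, Foliated (m - 1) N L (graph (by omega) Q)) := by
  obtain ⟨d, rfl⟩ : ∃ d, n = d + 1 := ⟨n - 1, by omega⟩
  obtain ⟨k, rfl⟩ : ∃ k, m = k + 1 := ⟨m - 1, by omega⟩
  rw [Nat.add_sub_cancel]
  have hFol : ∀ (N : ℕ) (L : ℝ) (S : Set (EuclideanSpace ℝ (Fin (d + 1)))),
      Foliated k N L S ↔ Pool.Agent.U527.Srf.Cov k N L S := by
    intro N L S
    constructor
    · rintro ⟨U, Γ, h1, h2, h3, h4⟩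
      exact ⟨U, Γ, ⟨fun u hu => (h2 u hu).1, fun u hu => (h2 u hu).2, h3, h4⟩, h1⟩
    · rintro ⟨U, Γ, h, h1⟩
      exact ⟨U, Γ, h1, fun u hu => ⟨h.cont u hu, h.order u hu⟩, h.lip, h.sep⟩
  refine ⟨?_, ?_, ?_⟩
  · intro L
    obtain ⟨C, hC, h⟩ := Pool.Agent.U527.Srf.upper d k (d + 1 - k) (by omega) (by omega) L
    refine ⟨C, hC, ?_⟩
    intro N S δ f p hS hδ hδ1 hf hp
    have e1 : d + 1 - (k + 1) + 3 = (d + 1 - k) + 2 := by omega
    rw [e1]
    refine h N S δ f p ((hFol N L S).1 hS) hδ hδ1 hf ?_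
    rw [Nat.cast_sub (by omega)]
    push_cast at hp ⊢
    linarith
  · intro p hp
    obtain ⟨c, hc, h⟩ := Pool.Agent.U527.Srf.lower d p hp
    refine ⟨c, hc, ?_⟩
    intro S hS δ hδ hδ1
    obtain ⟨f, h1, h2, h3, h4⟩ := h S hS δ hδ hδ1
    refine ⟨f, h1, h2, h3, ?_⟩
    push_cast
    exact h4
  · intro N Q hN hQ
    obtain ⟨L, -, hL⟩ := Pool.Agent.U527.Srf.fol_graph (n := d + 1) (by omega) Q hN hQ
    refine ⟨L, (hFol N L _).2 ⟨_, _, hL, ?_⟩⟩
    rintro x ⟨hx1, hx2⟩
    exact Pool.Agent.U527.Srf.graph_mem (by omega) Q x hx1 hx2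

end Pool.Agent.Results.MP_ac5134_an.SurfaceTubes
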